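import Mathlib
import Pool.Agent.MP_237f1e_co.Defs

-- part MP_237f1e_co.Upper
section

namespace Pool.Agent.MP_237f1e_co

open Set

theorem ncard_le_of_rel {α β : Type*} [Finite β] (s : Set α) (t : Set β) (r : α → β → Prop)
    (hs : ∀ a ∈ s, ∃ b ∈ t, r a b)
    (hu : ∀ a ∈ s, ∀ a' ∈ s, ∀ b, r a b → r a' b → a = a') : s.ncard ≤ t.ncard := by
  classical
  rcases s.eq_empty_or_nonempty with rfl | ⟨a0, ha0⟩
  · simp
  obtain ⟨b0, -, -⟩ := hs a0 ha0
  have : Nonempty β := ⟨b0⟩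
  choose! f hf using hs
  refine Set.ncard_le_ncard_of_injOn f (fun a ha => (hf a ha).1) ?_ (Set.toFinite _)
  intro a ha a' ha' h
  exact hu a ha a' ha' (f a) (hf a ha).2 (h ▸ (hf a' ha').2)

variable {ι : Type*}

/-- slope of the segment between two indexed points -/
noncomputable def slp (x y : ι → ℝ) (a b : ι) : ℝ := (y b - y a) / (x b - x a)

/-- height of the line through two indexed points -/
noncomputable def lin (x y : ι → ℝ) (a b : ι) (t : ℝ) : ℝ := y a + slp x y a b * (t - x a)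

variable {x y : ι → ℝ}

@[simp] theorem lin_left (a b : ι) : lin x y a b (x a) = y a := by simp [lin]

theorem slp_mul {a b : ι} (h : x a < x b) : slp x y a b * (x b - x a) = y b - y a := by
  unfold slp
  have : x b - x a ≠ 0 := (sub_pos.2 h).ne'
  field_simp

theorem lin_right {a b : ι} (h : x a < x b) : lin x y a b (x b) = y b := by
  unfold lin; rw [slp_mul h]; ring

theorem lin_cross {a b c d : ι} {p q : ℝ} (hpq : p < q)
    (hp : lin x y a b p < lin x y c d p) (hq : lin x y c d q < lin x y a b q) :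
    ∃ t, p < t ∧ t < q ∧ lin x y a b t = lin x y c d t := by
  have hc : ContinuousOn (fun t => lin x y a b t - lin x y c d t) (Icc p q) := by
    unfold lin; fun_prop
  obtain ⟨t, ht, h⟩ := intermediate_value_Ioo hpq.le hc
    (show (0 : ℝ) ∈ Ioo _ _ from ⟨sub_neg.2 hp, sub_pos.2 hq⟩)
  exact ⟨t, ht.1, ht.2, sub_eq_zero.1 h⟩

/-- consecutive in the order of abscissae -/
def Cons (x : ι → ℝ) (i j : ι) : Prop := x i < x j ∧ ∀ k, ¬ (x i < x k ∧ x k < x j)

/-- strictly below a chord -/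
def Cup (x y : ι → ℝ) (m : ι) : Prop := ∃ a b, x a < x m ∧ x m < x b ∧ y m < lin x y a b (x m)

/-- strictly above a chord -/
def Clow (x y : ι → ℝ) (m : ι) : Prop := ∃ a b, x a < x m ∧ x m < x b ∧ lin x y a b (x m) < y m

/-- abstract non-crossing straight-line structure -/
structure NonCross (x y : ι → ℝ) (D : ι → ι → Prop) : Prop where
  lt : ∀ a b, D a b → x a < x b
  cross : ∀ a b c d, D a b → D c d → ¬ (a = c ∧ b = d) → ∀ t, x a ≤ t → t ≤ x b → x c ≤ t →
    t ≤ x d → lin x y a b t = lin x y c d t → ∃ v, (v = a ∨ v = b) ∧ (v = c ∨ v = d) ∧ x v = t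
  thru : ∀ a b v, D a b → x a < x v → x v < x b → lin x y a b (x v) ≠ y v

/-- consecutive right edges at `v` and the leftmost point of their wedge -/
structure Wedge (x y : ι → ℝ) (D : ι → ι → Prop) (v u w m : ι) : Prop where
  du : D v u
  dw : D v w
  sl : slp x y v w < slp x y v u
  cons : ∀ z, D v z → ¬ (slp x y v w < slp x y v z ∧ slp x y v z < slp x y v u)
  vm : x v < x m
  mu : x m ≤ x u
  mw : x m ≤ x w
  lo : lin x y v w (x m) ≤ y m
  hi : y m ≤ lin x y v u (x m)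
  min : ∀ m', x v < x m' → x m' < x m → ¬ (lin x y v w (x m') ≤ y m' ∧ y m' ≤ lin x y v u (x m'))

variable {D : ι → ι → Prop}

theorem wedge_empty (hx : Function.Injective x) (H : NonCross x y D) {v u w m c d : ι}
    (W : Wedge x y D v u w m) (hcd : D c d) (hc : x c < x m) (hd : x m ≤ x d)
    (h1 : lin x y v w (x m) < lin x y c d (x m)) (h2 : lin x y c d (x m) < lin x y v u (x m)) :
    False := by
  by_cases hcv : c = v
  · subst hcv
    apply W.cons d hcd
    have := sub_pos.2 W.vm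
    unfold lin at h1 h2
    constructor <;> nlinarith
  have key : ∃ p, x v ≤ p ∧ x c ≤ p ∧ p < x m ∧
      (lin x y c d p < lin x y v w p ∨ lin x y v u p < lin x y c d p) := by
    rcases lt_trichotomy (x v) (x c) with h | h | h
    · refine ⟨x c, h.le, le_rfl, hc, ?_⟩
      have := W.min c h hc
      rw [lin_left]
      by_contra hh
      push Not at hh
      exact this ⟨hh.1, hh.2⟩
    · exact absurd (hx h).symm hcv
    · refine ⟨x v, le_rfl, h.le, W.vm, ?_⟩
      have := H.thru c d v hcd h (W.vm.trans_le hd)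
      rw [lin_left, lin_left]
      exact lt_or_gt_of_ne this
  obtain ⟨p, hp1, hp2, hp3, hp | hp⟩ := key
  · obtain ⟨t, ht1, ht2, ht⟩ := lin_cross hp3 hp h1
    obtain ⟨z, -, hz, hzt⟩ := H.cross c d v w hcd W.dw (fun h => hcv h.1) t (by linarith)
      (by linarith) (by linarith) (by linarith [W.mw]) ht
    rcases hz with rfl | rfl <;> linarith [W.mw]
  · obtain ⟨t, ht1, ht2, ht⟩ := lin_cross hp3 hp h2
    obtain ⟨z, hz, -, hzt⟩ := H.cross v u c d W.du hcd (fun h => hcv h.1.symm) t (by linarith)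
      (by linarith [W.mu]) (by linarith) (by linarith) ht
    rcases hz with rfl | rfl <;> linarith [W.mu]

theorem same_slope (hx : Function.Injective x) (H : NonCross x y D) {v u u' : ι}
    (h : D v u) (h' : D v u') (hs : slp x y v u = slp x y v u') : u = u' := by
  have key : ∀ {u u' : ι}, D v u → D v u' → slp x y v u = slp x y v u' → ¬ x u < x u' := by
    intro u u' h h' hs hlt
    apply H.thru v u' u h' (H.lt _ _ h) hlt
    rw [← lin_right (y := y) (H.lt _ _ h)]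
    unfold lin; rw [hs]
  rcases lt_trichotomy (x u) (x u') with h1 | h1 | h1
  · exact absurd h1 (key h h' hs)
  · exact hx h1
  · exact absurd h1 (key h' h hs.symm)

theorem Wedge.hi_lt (hx : Function.Injective x) (H : NonCross x y D) {v u w m : ι}
    (W : Wedge x y D v u w m) (h : m ≠ u) : x m < x u ∧ y m < lin x y v u (x m) := by
  have h1 : x m < x u := lt_of_le_of_ne W.mu (fun e => h (hx e))
  exact ⟨h1, lt_of_le_of_ne W.hi (H.thru v u m W.du W.vm h1).symm⟩

theorem Wedge.lo_lt (hx : Function.Injective x) (H : NonCross x y D) {v u w m : ι}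
    (W : Wedge x y D v u w m) (h : m ≠ w) : x m < x w ∧ lin x y v w (x m) < y m := by
  have h1 : x m < x w := lt_of_le_of_ne W.mw (fun e => h (hx e))
  exact ⟨h1, lt_of_le_of_ne W.lo (H.thru v w m W.dw W.vm h1)⟩

theorem uniq_up (hx : Function.Injective x) (H : NonCross x y D) {v u w v' u' w' m : ι}
    (W : Wedge x y D v u w m) (W' : Wedge x y D v' u' w' m) (h : m ≠ u) (h' : m ≠ u') :
    v = v' ∧ u = u' := by
  by_contra hne
  obtain ⟨a1, a2⟩ := W.hi_lt hx H h
  obtain ⟨b1, b2⟩ := W'.hi_lt hx H h'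
  rcases lt_trichotomy (lin x y v u (x m)) (lin x y v' u' (x m)) with e | e | e
  · exact wedge_empty hx H W' W.du W.vm W.mu (W'.lo.trans_lt a2) e
  · obtain ⟨z, hz, -, hzt⟩ := H.cross v u v' u' W.du W'.du hne (x m) W.vm.le W.mu W'.vm.le W'.mu e
    rcases hz with rfl | rfl <;> linarith [W.vm]
  · exact wedge_empty hx H W W'.du W'.vm W'.mu (W.lo.trans_lt b2) e

theorem uniq_down (hx : Function.Injective x) (H : NonCross x y D) {v u w v' u' w' m : ι}
    (W : Wedge x y D v u w m) (W' : Wedge x y D v' u' w' m) (h : m ≠ w) (h' : m ≠ w') :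
    v = v' ∧ w = w' := by
  by_contra hne
  obtain ⟨a1, a2⟩ := W.lo_lt hx H h
  obtain ⟨b1, b2⟩ := W'.lo_lt hx H h'
  rcases lt_trichotomy (lin x y v w (x m)) (lin x y v' w' (x m)) with e | e | e
  · exact wedge_empty hx H W W'.dw W'.vm W'.mw e (b2.trans_le W.hi)
  · obtain ⟨z, hz, -, hzt⟩ := H.cross v w v' w' W.dw W'.dw hne (x m) W.vm.le W.mw W'.vm.le W'.mw e
    rcases hz with rfl | rfl <;> linarith [W.vm]
  · exact wedge_empty hx H W' W.dw W.vm W.mw e (a2.trans_le W'.hi)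

theorem exists_wedge [Finite ι] (H : NonCross x y D) {v u w0 : ι} (hu : D v u) (hw0 : D v w0)
    (hs : slp x y v w0 < slp x y v u) : ∃ w m, Wedge x y D v u w m := by
  obtain ⟨w, hw, hmax⟩ := Set.exists_max_image {w | D v w ∧ slp x y v w < slp x y v u}
    (slp x y v) (Set.toFinite _) ⟨w0, hw0, hs⟩
  have hne : ({m | x v < x m ∧ x m ≤ x u ∧ x m ≤ x w ∧ lin x y v w (x m) ≤ y m ∧
      y m ≤ lin x y v u (x m)} : Set ι).Nonempty := by
    have h1 := H.lt _ _ hu
    have h2 := H.lt _ _ hw.1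
    have h3 := hw.2
    rcases le_total (x u) (x w) with h | h
    · refine ⟨u, h1, le_rfl, h, ?_, (lin_right h1).ge⟩
      rw [← lin_right (y := y) h1]
      unfold lin
      have := sub_pos.2 h1
      nlinarith
    · refine ⟨w, h2, h, le_rfl, (lin_right h2).le, ?_⟩
      rw [← lin_right (y := y) h2]
      unfold lin
      have := sub_pos.2 h2
      nlinarith
  obtain ⟨m, hm, hmin⟩ := Set.exists_min_image _ x (Set.toFinite _) hne
  refine ⟨w, m, hu, hw.1, hw.2, ?_, hm.1, hm.2.1, hm.2.2.1, hm.2.2.2.1, hm.2.2.2.2, ?_⟩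
  · rintro z hz ⟨h1, h2⟩
    exact absurd (hmax z ⟨hz, h2⟩) (not_le.2 h1)
  · rintro m' h1 h2 ⟨h3, h4⟩
    exact absurd (hmin m' ⟨h1, h2.le.trans hm.2.1, h2.le.trans hm.2.2.1, h3, h4⟩) (not_le.2 h2)

theorem exists_cons [Finite ι] {v u : ι} (h : x v < x u) : ∃ j, Cons x v j := by
  obtain ⟨j, hj, hmin⟩ := Set.exists_min_image {j | x v < x j} x (Set.toFinite _) ⟨u, h⟩
  exact ⟨j, hj, fun k hk => absurd (hmin k hk.1) (not_le.2 hk.2)⟩

theorem upper_bound [Finite ι] (hx : Function.Injective x) (H : NonCross x y D) :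
    {p : ι × ι | D p.1 p.2}.ncard ≤
      {p : ι × ι | Cons x p.1 p.2}.ncard + {m | Cup x y m}.ncard + {m | Clow x y m}.ncard := by
  let S0 : Set (ι × ι) := {p | D p.1 p.2 ∧ ∀ w, D p.1 w → slp x y p.1 p.2 ≤ slp x y p.1 w}
  let S1 : Set (ι × ι) := {p | ∃ w m, Wedge x y D p.1 p.2 w m ∧ m ≠ p.2}
  let S2 : Set (ι × ι) := {p | ∃ w, Wedge x y D p.1 p.2 w p.2}
  have hsub : {p : ι × ι | D p.1 p.2} ⊆ S0 ∪ S1 ∪ S2 := by
    rintro ⟨v, u⟩ hp
    by_cases h0 : ∀ w, D v w → slp x y v u ≤ slp x y v w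
    · exact Or.inl (Or.inl ⟨hp, h0⟩)
    push Not at h0
    obtain ⟨w0, hw0, hs⟩ := h0
    obtain ⟨w, m, W⟩ := exists_wedge H hp hw0 hs
    by_cases hm : m = u
    · subst hm; exact Or.inr ⟨w, W⟩
    · exact Or.inl (Or.inr ⟨w, m, W, hm⟩)
  have h0 : S0.ncard ≤ {p : ι × ι | Cons x p.1 p.2}.ncard := by
    refine ncard_le_of_rel _ _ (fun p q => p.1 = q.1) ?_ ?_
    · rintro ⟨v, u⟩ hp
      obtain ⟨j, hj⟩ := exists_cons (H.lt _ _ hp.1)
      exact ⟨(v, j), hj, rfl⟩
    · rintro ⟨v, u⟩ hp ⟨v', u'⟩ hp' q (h : v = q.1) (h' : v' = q.1)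
      obtain rfl : v = v' := h.trans h'.symm
      exact Prod.ext rfl
        (same_slope hx H hp.1 hp'.1 (le_antisymm (hp.2 _ hp'.1) (hp'.2 _ hp.1)))
  have h1 : S1.ncard ≤ {m | Cup x y m}.ncard := by
    refine ncard_le_of_rel _ _ (fun p m => ∃ w, Wedge x y D p.1 p.2 w m ∧ m ≠ p.2) ?_ ?_
    · rintro ⟨v, u⟩ ⟨w, m, W, hm⟩
      exact ⟨m, ⟨v, u, W.vm, W.hi_lt hx H hm⟩, w, W, hm⟩
    · rintro ⟨v, u⟩ - ⟨v', u'⟩ - m ⟨w, W, hm⟩ ⟨w', W', hm'⟩
      obtain ⟨h1, h2⟩ := uniq_up hx H W W' hm hm'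
      exact Prod.ext h1 h2
  have h2 : S2.ncard ≤ {m | Clow x y m}.ncard := by
    have hne : ∀ {v u w m : ι}, Wedge x y D v u w m → u ≠ w := by
      rintro v u w m W rfl
      exact lt_irrefl _ W.sl
    refine ncard_le_of_rel _ _ (fun p m => m = p.2) ?_ ?_
    · rintro ⟨v, u⟩ ⟨w, W⟩
      exact ⟨u, ⟨v, w, W.vm, W.lo_lt hx H (hne W)⟩, rfl⟩
    · rintro ⟨v, u⟩ ⟨w, W⟩ ⟨v', u'⟩ ⟨w', W'⟩ m (h : m = u) (h' : m = u')
      obtain rfl : u = u' := h.symm.trans h'
      obtain ⟨h1, -⟩ := uniq_down hx H W W' (hne W) (hne W')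
      exact Prod.ext h1 rfl
  calc {p : ι × ι | D p.1 p.2}.ncard ≤ (S0 ∪ S1 ∪ S2).ncard :=
        Set.ncard_le_ncard hsub (Set.toFinite _)
    _ ≤ (S0 ∪ S1).ncard + S2.ncard := Set.ncard_union_le _ _
    _ ≤ S0.ncard + S1.ncard + S2.ncard := by gcongr; exact Set.ncard_union_le _ _
    _ ≤ _ := by gcongr

end Pool.Agent.MP_237f1e_co

end

-- part MP_237f1e_co.Count
section

namespace Pool.Agent.MP_237f1e_co

open Set

variable {ι : Type*} {x y : ι → ℝ}

theorem le_slp_iff {a b : ι} (h : x a < x b) (τ : ℝ) :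
    τ ≤ slp x y a b ↔ y a - τ * x a ≤ y b - τ * x b := by
  unfold slp
  rw [le_div_iff₀ (sub_pos.2 h)]
  constructor <;> intro h <;> linarith

theorem slp_le_iff {a b : ι} (h : x a < x b) (τ : ℝ) :
    slp x y a b ≤ τ ↔ y b - τ * x b ≤ y a - τ * x a := by
  unfold slp
  rw [div_le_iff₀ (sub_pos.2 h)]
  constructor <;> intro h <;> linarith

theorem lt_slp_iff {a b : ι} (h : x a < x b) (τ : ℝ) :
    τ < slp x y a b ↔ y a - τ * x a < y b - τ * x b := by
  rw [← not_le, slp_le_iff h, not_le]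

theorem slp_lt_iff {a b : ι} (h : x a < x b) (τ : ℝ) :
    slp x y a b < τ ↔ y b - τ * x b < y a - τ * x a := by
  rw [← not_le, le_slp_iff h, not_le]

theorem slp_self_eq {a b : ι} (h : x a < x b) :
    y a - slp x y a b * x a = y b - slp x y a b * x b := by
  have := slp_mul (y := y) h
  linarith

/-- the long upper edges -/
def Up (x y : ι → ℝ) (s : ℝ) (Q : ι → Prop) (i j : ι) : Prop :=
  Q i ∧ (∃ k, x i < x k ∧ x k < x j) ∧ ∃ τ, s ≤ τ ∧ τ ≤ max (slp x y i j) s ∧
    (∀ k, Q k → x k < x i → y k - τ * x k < y i - τ * x i) ∧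
    (∀ k, x i < x k → x k < x j → y k - τ * x k ≤ y i - τ * x i)

/-- strictly below a chord whose left end is active -/
def CupQ (x y : ι → ℝ) (Q : ι → Prop) (m : ι) : Prop :=
  ∃ a b, Q a ∧ x a < x m ∧ x m < x b ∧ y m < lin x y a b (x m)

theorem slp_lt_of_below {a b m : ι} (h1 : x a < x m) (h2 : x m < x b)
    (h : y m < lin x y a b (x m)) : slp x y a m < slp x y m b := by
  have h3 := slp_self_eq (y := y) (h1.trans h2)
  have e1 : slp x y a m < slp x y a b := by
    rw [slp_lt_iff h1]; unfold lin at h; linarith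
  have e2 : slp x y a b < slp x y m b := by
    rw [lt_slp_iff h2]; unfold lin at h; linarith
  exact e1.trans e2

theorem count_up [Finite ι] (hx : Function.Injective x) (s : ℝ) (Q : ι → Prop)
    (hQ : ∀ i k, Q i → x i < x k → Q k) :
    {m | CupQ x y Q m}.ncard ≤ {p : ι × ι | Up x y s Q p.1 p.2}.ncard := by
  refine ncard_le_of_rel _ _ (fun m p => x p.1 < x m ∧ x m < x p.2 ∧ Q p.1 ∧ ∃ τ,
    (∀ k, x p.1 < x k → x k < x p.2 → y k - τ * x k ≤ y p.1 - τ * x p.1) ∧
    (τ ≤ s ∨ ∀ k, Q k → x k < x m → τ ≤ slp x y k m) ∧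
    ((∀ k, ¬ (x m < x k ∧ x k < x p.2)) ∨
      (s < slp x y p.1 m ∧ ∀ k, x m < x k → x k < x p.2 → slp x y m k < slp x y p.1 m))) ?_ ?_
  · rintro m ⟨a0, b0, hQa, ha0, hb0, hbelow⟩
    obtain ⟨i0, hi0, hmin0⟩ := Set.exists_min_image {k | Q k ∧ x k < x m}
      (fun k => slp x y k m) (Set.toFinite _) ⟨a0, hQa, ha0⟩
    set a := slp x y i0 m with ha
    obtain ⟨j, hj, hjmin⟩ := Set.exists_min_image {j | x m < x j ∧ (a ≤ s ∨ a ≤ slp x y m j)}
      x (Set.toFinite _)
      ⟨b0, hb0, Or.inr ((hmin0 a0 ⟨hQa, ha0⟩).trans (slp_lt_of_below ha0 hb0 hbelow).le)⟩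
    set τ := max a s with hτ
    obtain ⟨i1, hi1, hmax1⟩ := Set.exists_max_image {k | Q k ∧ x k < x m}
      (fun k => y k - τ * x k) (Set.toFinite _) ⟨a0, hQa, ha0⟩
    obtain ⟨i, hi, himin⟩ := Set.exists_min_image
      {k | (Q k ∧ x k < x m) ∧ y k - τ * x k = y i1 - τ * x i1} x (Set.toFinite _) ⟨i1, hi1, rfl⟩
    have hmax : ∀ k, Q k → x k < x m → y k - τ * x k ≤ y i - τ * x i := fun k h1 h2 => by
      rw [hi.2]; exact hmax1 k ⟨h1, h2⟩
    have him : x i < x m := hi.1.2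
    have F1 : ∀ k, Q k → x k < x i → y k - τ * x k < y i - τ * x i := by
      intro k h1 h2
      refine lt_of_le_of_ne (hmax k h1 (h2.trans him)) (fun e => ?_)
      exact absurd (himin k ⟨⟨h1, h2.trans him⟩, e.trans hi.2⟩) (not_le.2 h2)
    have F2 : y m - τ * x m ≤ y i - τ * x i :=
      ((slp_le_iff hi0.2 τ).1 (le_max_left _ _)).trans (hmax i0 hi0.1 hi0.2)
    have F3 : ∀ k, x m < x k → x k < x j → s < a ∧ slp x y m k < a := by
      intro k h1 h2
      by_contra hc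
      refine absurd (hjmin k ⟨h1, ?_⟩) (not_le.2 h2)
      by_contra hc2
      push Not at hc2
      exact hc hc2
    have F4 : ∀ k, x i < x k → x k < x j → y k - τ * x k ≤ y i - τ * x i := by
      intro k h1 h2
      rcases lt_trichotomy (x k) (x m) with h | h | h
      · exact hmax k (hQ i k hi.1.1 h1) h
      · rw [hx h]; exact F2
      · exact ((slp_le_iff h τ).1 ((F3 k h h2).2.le.trans (le_max_left _ _))).trans F2
    have hai : a ≤ slp x y i m := hmin0 i hi.1
    have F5 : τ ≤ max (slp x y i j) s := by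
      rcases le_or_gt a s with h | h
      · rw [hτ, max_eq_right h]; exact le_max_right _ _
      · rw [hτ, max_eq_left h.le]
        refine le_trans ?_ (le_max_left _ _)
        have h1 : a ≤ slp x y m j := hj.2.resolve_left (not_le.2 h)
        rw [le_slp_iff (him.trans hj.1)]
        exact ((le_slp_iff him a).1 hai).trans ((le_slp_iff hj.1 a).1 h1)
    refine ⟨(i, j), ⟨hi.1.1, ⟨m, him, hj.1⟩, τ, le_max_right _ _, F5, F1, F4⟩, him, hj.1,
      hi.1.1, τ, F4, ?_, ?_⟩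
    · rcases le_or_gt a s with h | h
      · left; rw [hτ, max_eq_right h]
      · right; rw [hτ, max_eq_left h.le]
        exact fun k h1 h2 => hmin0 k ⟨h1, h2⟩
    · by_cases h : ∀ k, ¬ (x m < x k ∧ x k < x j)
      · exact Or.inl h
      · right
        push Not at h
        obtain ⟨k, h1, h2⟩ := h
        exact ⟨(F3 k h1 h2).1.trans_le hai, fun k h1 h2 => (F3 k h1 h2).2.trans_le hai⟩
  · have key : ∀ (m m' i j : ι), x m < x m' → x i < x m → x m' < x j → Q i →
        ((∀ k, ¬ (x m < x k ∧ x k < x j)) ∨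
          (s < slp x y i m ∧ ∀ k, x m < x k → x k < x j → slp x y m k < slp x y i m)) →
        ∀ τ, (∀ k, x i < x k → x k < x j → y k - τ * x k ≤ y i - τ * x i) →
        (τ ≤ s ∨ ∀ k, Q k → x k < x m' → τ ≤ slp x y k m') → False := by
      intro m m' i j h1 h2 h3 hQi h4 τ h5 h6
      obtain ⟨h7, h8⟩ := h4.resolve_left (fun h => h m' ⟨h1, h3⟩)
      have h9 : slp x y i m ≤ τ := (slp_le_iff h2 τ).2 (h5 m h2 (h1.trans h3))
      have h10 := h6.resolve_left (not_le.2 (h7.trans_le h9)) m (hQ i m hQi h2) h1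
      linarith [h8 m' h1 h3]
    rintro m - m' - ⟨i, j⟩ ⟨h1, h2, hQi, τ, h3, h4, h5⟩ ⟨h1', h2', -, τ', h3', h4', h5'⟩
    rcases lt_trichotomy (x m) (x m') with h | h | h
    · exact (key m m' i j h h1 h2' hQi h5 τ' h3' h4').elim
    · exact hx h
    · exact (key m' m i j h h1' h2 hQi h5' τ h3 h4).elim

end Pool.Agent.MP_237f1e_co

end

-- part MP_237f1e_co.Curves
section

namespace Pool.Agent.MP_237f1e_co

open Set Filter Topology

variable {ι : Type*} {x y : ι → ℝ} {s : ℝ} {Q : ι → Prop} {η : ι → ι → ℝ}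

/-- first slope -/
noncomputable def sg (x y : ι → ℝ) (s : ℝ) (η : ι → ι → ℝ) (i j : ι) : ℝ :=
  max (slp x y i j) s + η i j

/-- second slope -/
noncomputable def rh (x y : ι → ℝ) (s : ℝ) (η : ι → ι → ℝ) (i j : ι) : ℝ :=
  -s - (1 + s ^ 2) / (sg x y s η i j - s)

/-- first line -/
noncomputable def L1 (x y : ι → ℝ) (s : ℝ) (η : ι → ι → ℝ) (i j : ι) (t : ℝ) : ℝ :=
  y i + sg x y s η i j * (t - x i)

/-- second line -/
noncomputable def L2 (x y : ι → ℝ) (s : ℝ) (η : ι → ι → ℝ) (i j : ι) (t : ℝ) : ℝ :=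
  y j + rh x y s η i j * (t - x j)

/-- the curve -/
noncomputable def crv (x y : ι → ℝ) (s : ℝ) (η : ι → ι → ℝ) (i j : ι) (t : ℝ) : ℝ :=
  min (L1 x y s η i j t) (L2 x y s η i j t)

/-- good perturbations -/
structure Good (x y : ι → ℝ) (s : ℝ) (η : ι → ι → ℝ) : Prop where
  pos : ∀ i j, 0 < η i j
  right : ∀ i j j', x j' < x j → η i j' < η i j
  left : ∀ i i' j, x i < x i' → η i j < η i' j
  nest : ∀ i i' j j', x i < x i' → x i' ≤ x j' → x j' ≤ x j →
    η i' j' * (x j' - x i') < η i j * (x j' - x i)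
  bend : ∀ i j k, x i < x j → x k < x j → L1 x y s η i j (x k) < L2 x y s η i j (x k)

theorem bend_eventually (m s c p q : ℝ) (hc : 0 < c) (hq : 0 < q) :
    ∀ᶠ ε in 𝓝[>] (0 : ℝ), 0 < (m - (max m s + ε * c)) * p +
      (m - (-s - (1 + s ^ 2) / (max m s + ε * c - s))) * q := by
  let Φ : ℝ → ℝ := fun ε => (max m s + ε * c - s) * ((m - (max m s + ε * c)) * p + (m + s) * q)
    + (1 + s ^ 2) * q
  have hcont : Continuous Φ := by fun_prop
  have h0 : 0 < Φ 0 := by
    simp only [Φ]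
    rcases le_total m s with h | h
    · rw [max_eq_right h]
      have : 0 < (1 + s ^ 2) * q := by positivity
      simpa using this
    · rw [max_eq_left h]
      have : 0 < (1 + m ^ 2) * q := by positivity
      nlinarith
  have h1 : ∀ᶠ ε in 𝓝 (0 : ℝ), 0 < Φ ε := hcont.continuousAt.eventually (lt_mem_nhds h0)
  filter_upwards [nhdsWithin_le_nhds h1, self_mem_nhdsWithin] with ε h2 h3
  have h4 : 0 < max m s + ε * c - s := by
    have := le_max_right m s
    have : 0 < ε * c := mul_pos h3 hc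
    linarith
  have h5 : (m - (max m s + ε * c)) * p + (m - (-s - (1 + s ^ 2) / (max m s + ε * c - s))) * q
      = Φ ε / (max m s + ε * c - s) := by
    simp only [Φ]
    field_simp
    ring
  rw [h5]
  positivity

theorem exists_good [Finite ι] (x y : ι → ℝ) (s : ℝ) : ∃ η, Good x y s η := by
  obtain ⟨B, hB⟩ := (Set.finite_range x).bddAbove
  have hB1 : ∀ i, x i ≤ B := fun i => hB ⟨i, rfl⟩
  let g : ι → ι → ℝ := fun i j => 1 / (2 * B + 1 - x i - x j)
  have hd : ∀ i j, 0 < 2 * B + 1 - x i - x j := fun i j => by linarith [hB1 i, hB1 j]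
  have hg : ∀ i j, 0 < g i j := fun i j => one_div_pos.2 (hd i j)
  have hev : ∀ᶠ ε in 𝓝[>] (0 : ℝ), ∀ i j k, x i < x j → x k < x j →
      L1 x y s (fun i j => ε * g i j) i j (x k) < L2 x y s (fun i j => ε * g i j) i j (x k) := by
    simp only [eventually_all]
    intro i j k hij hkj
    filter_upwards [bend_eventually (slp x y i j) s (g i j) (x k - x i) (x j - x k) (hg i j)
      (sub_pos.2 hkj)] with ε h
    have := slp_mul (y := y) hij
    unfold L1 L2 rh sg
    nlinarith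
  obtain ⟨ε, h1, h2⟩ := (hev.and self_mem_nhdsWithin).exists
  have hε : 0 < ε := h2
  refine ⟨fun i j => ε * g i j, fun i j => mul_pos hε (hg i j), ?_, ?_, ?_, h1⟩
  · intro i j j' h
    exact mul_lt_mul_of_pos_left (one_div_lt_one_div_of_lt (hd i j) (by linarith)) hε
  · intro i i' j h
    exact mul_lt_mul_of_pos_left (one_div_lt_one_div_of_lt (hd i' j) (by linarith)) hε
  · intro i i' j j' h1 h2 h3
    have e1 : g i j' ≤ g i j := one_div_le_one_div_of_le (hd i j) (by linarith)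
    have e2 : g i' j' * (x j' - x i') < g i j' * (x j' - x i) := by
      simp only [g]
      rw [one_div_mul_eq_div, one_div_mul_eq_div, div_lt_div_iff₀ (hd _ _) (hd _ _)]
      have := mul_pos (sub_pos.2 h1) (hd j' j')
      nlinarith
    have e3 : g i j' * (x j' - x i) ≤ g i j * (x j' - x i) :=
      mul_le_mul_of_nonneg_right e1 (by linarith)
    have := mul_lt_mul_of_pos_left (e2.trans_le e3) hε
    simpa only [mul_assoc] using this

/-- upper edges, including the edges between consecutive points -/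
def Up' (x y : ι → ℝ) (s : ℝ) (Q : ι → Prop) (i j : ι) : Prop := Cons x i j ∨ Up x y s Q i j

theorem Up.lt {i j : ι} (h : Up x y s Q i j) : x i < x j := by
  obtain ⟨-, ⟨k, h1, h2⟩, -⟩ := h
  exact h1.trans h2

theorem Up'.lt {i j : ι} (h : Up' x y s Q i j) : x i < x j := h.elim (·.1) Up.lt

theorem Up'.vis (hx : Function.Injective x) {i j k : ι} (h : Up' x y s Q i j) (h1 : x i ≤ x k)
    (h2 : x k ≤ x j) : y k ≤ y i + max (slp x y i j) s * (x k - x i) := by
  rcases h1.eq_or_lt with h1 | h1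
  · rw [hx h1]; simp
  rcases h2.eq_or_lt with h2 | h2
  · rw [hx h2]
    have := (slp_le_iff (y := y) h.lt _).1 (le_max_left _ s)
    linarith
  rcases h with h | ⟨-, -, τ, -, h3, -, h4⟩
  · exact absurd ⟨h1, h2⟩ (h.2 k)
  · have := h4 k h1 h2
    have := mul_le_mul_of_nonneg_right h3 (sub_pos.2 h1).le
    linarith

theorem laminar (hx : Function.Injective x) {i j i' j' : ι} (h : Up' x y s Q i j)
    (h' : Up' x y s Q i' j') (h1 : x i < x i') (h2 : x i' < x j) (h3 : x j < x j') : False := by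
  have hv := h.vis hx h1.le h2.le
  have hQ : Q i := (h.resolve_left (fun hc => hc.2 i' ⟨h1, h2⟩)).1
  obtain ⟨-, -, τ, hτ, -, h4, h5⟩ := h'.resolve_left (fun hc => hc.2 j ⟨h2, h3⟩)
  have e1 := h4 i hQ h1
  have e2 := h5 j h2 h3
  have e3 : slp x y i j < τ ∨ τ ≤ slp x y i j := lt_or_ge _ _
  have e4 : τ < max (slp x y i j) s := by
    have := sub_pos.2 h1
    nlinarith
  have e5 : s < slp x y i j := by
    by_contra hc
    rw [max_eq_right (not_lt.1 hc)] at e4
    linarith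
  rw [max_eq_left e5.le] at hv e4
  have e6 := slp_self_eq (y := y) (h1.trans h2)
  have := sub_pos.2 h2
  nlinarith

theorem Good.s_lt_sg (G : Good x y s η) (i j : ι) : s < sg x y s η i j := by
  unfold sg
  linarith [le_max_right (slp x y i j) s, G.pos i j]

theorem Good.rh_lt_sg (G : Good x y s η) (i j : ι) : rh x y s η i j < sg x y s η i j := by
  unfold rh
  have h := sub_pos.2 (G.s_lt_sg i j)
  generalize sg x y s η i j = σ at h
  have : -s - (1 + s ^ 2) / (σ - s) = σ - (1 + σ ^ 2) / (σ - s) := by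
    field_simp; ring
  rw [this]
  have : 0 < (1 + σ ^ 2) / (σ - s) := by positivity
  linarith

theorem Good.rh_lt_rh (G : Good x y s η) {i j i' j' : ι}
    (h : sg x y s η i j < sg x y s η i' j') : rh x y s η i j < rh x y s η i' j' := by
  unfold rh
  have h1 := sub_pos.2 (G.s_lt_sg i j)
  have : (1 + s ^ 2) / (sg x y s η i' j' - s) < (1 + s ^ 2) / (sg x y s η i j - s) :=
    div_lt_div_of_pos_left (by positivity) h1 (by linarith)
  linarith

theorem Good.le_L1 (G : Good x y s η) (hx : Function.Injective x) {i j k : ι}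
    (h : Up' x y s Q i j) (h1 : x i ≤ x k) (h2 : x k ≤ x j) : y k ≤ L1 x y s η i j (x k) := by
  have := h.vis hx h1 h2
  have := mul_nonneg (G.pos i j).le (sub_nonneg.2 h1)
  unfold L1 sg
  linarith

theorem Good.lt_L1 (G : Good x y s η) (hx : Function.Injective x) {i j k : ι}
    (h : Up' x y s Q i j) (h1 : x i < x k) (h2 : x k ≤ x j) : y k < L1 x y s η i j (x k) := by
  have := h.vis hx h1.le h2
  have := mul_pos (G.pos i j) (sub_pos.2 h1)
  unfold L1 sg
  linarith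

theorem Good.lt_L2 (G : Good x y s η) (hx : Function.Injective x) {i j k : ι}
    (h : Up' x y s Q i j) (h1 : x i ≤ x k) (h2 : x k < x j) : y k < L2 x y s η i j (x k) :=
  (G.le_L1 hx h h1 h2.le).trans_lt (G.bend i j k h.lt h2)

theorem Good.le_L2 (G : Good x y s η) (hx : Function.Injective x) {i j k : ι}
    (h : Up' x y s Q i j) (h1 : x i ≤ x k) (h2 : x k ≤ x j) : y k ≤ L2 x y s η i j (x k) := by
  rcases h2.eq_or_lt with h2 | h2
  · rw [hx h2]; simp [L2]
  · exact (G.lt_L2 hx h h1 h2).le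

theorem Good.le_crv (G : Good x y s η) (hx : Function.Injective x) {i j k : ι}
    (h : Up' x y s Q i j) (h1 : x i ≤ x k) (h2 : x k ≤ x j) : y k ≤ crv x y s η i j (x k) :=
  le_min (G.le_L1 hx h h1 h2) (G.le_L2 hx h h1 h2)

theorem Good.eq_of_crv (G : Good x y s η) (hx : Function.Injective x) {i j k : ι}
    (h : Up' x y s Q i j) (h1 : x i ≤ x k) (h2 : x k ≤ x j)
    (h3 : crv x y s η i j (x k) ≤ y k) : k = i ∨ k = j := by
  rcases h1.eq_or_lt with h1 | h1
  · exact Or.inl (hx h1).symm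
  rcases h2.eq_or_lt with h2 | h2
  · exact Or.inr (hx h2)
  exact absurd h3 (not_le.2 (lt_min (G.lt_L1 hx h h1 h2.le) (G.lt_L2 hx h h1.le h2)))

theorem Good.lin_lt_crv (G : Good x y s η) (hx : Function.Injective x) {i j a b : ι} {t : ℝ}
    (h : Up' x y s Q i j) (h1 : x i ≤ x a) (h2 : x a < t) (h3 : t < x b) (h4 : x b ≤ x j) :
    lin x y a b t < crv x y s η i j t := by
  have hab := h2.trans h3
  have e := slp_mul (y := y) hab
  have a1 := G.le_L1 hx h h1 (hab.le.trans h4)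
  have a2 := G.lt_L1 hx h (h1.trans_lt hab) h4
  have b1 := G.lt_L2 hx h h1 (hab.trans_le h4)
  have b2 := G.le_L2 hx h (h1.trans hab.le) h4
  have p1 := sub_pos.2 h2
  have p2 := sub_pos.2 h3
  have p3 := sub_pos.2 hab
  unfold crv
  unfold L1 L2 lin at *
  refine lt_min ?_ ?_
  · apply lt_of_mul_lt_mul_left _ p3.le
    nlinarith [mul_le_mul_of_nonneg_left a1 p2.le, mul_lt_mul_of_pos_left a2 p1]
  · apply lt_of_mul_lt_mul_left _ p3.le
    nlinarith [mul_lt_mul_of_pos_left b1 p2, mul_le_mul_of_nonneg_left b2 p1.le]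

theorem Good.L1_nested (G : Good x y s η) (hx : Function.Injective x) {i j i' j' : ι} {t : ℝ}
    (h : Up' x y s Q i j) (hij' : x i' < x j') (h1 : x i < x i') (h2 : x i' ≤ t) (h3 : t ≤ x j')
    (h4 : x j' ≤ x j) : L1 x y s η i' j' t < L1 x y s η i j t := by
  have a1 : L1 x y s η i' j' (x i') < L1 x y s η i j (x i') := by
    have := G.lt_L1 hx h h1 (hij'.le.trans h4)
    simpa [L1] using this
  have a2 : L1 x y s η i' j' (x j') < L1 x y s η i j (x j') := by
    have n := G.nest i i' j j' h1 hij'.le h4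
    have v1 := h.vis hx h1.le (hij'.le.trans h4)
    have v2 := h.vis hx (h1.le.trans hij'.le) h4
    have e := slp_mul (y := y) hij'
    have m := mul_le_mul_of_nonneg_right (le_max_right (slp x y i j) s) (sub_pos.2 hij').le
    unfold L1 sg
    rcases le_total (slp x y i' j') s with h5 | h5
    · rw [max_eq_right h5]; nlinarith
    · rw [max_eq_left h5]; nlinarith
  have p1 := sub_nonneg.2 h2
  have p2 := sub_nonneg.2 h3
  have p3 := sub_pos.2 hij'
  unfold L1 at *
  rcases h2.eq_or_lt with h2 | h2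
  · rw [← h2]; exact a1
  apply lt_of_mul_lt_mul_left _ p3.le
  nlinarith [mul_le_mul_of_nonneg_left a1.le p2, mul_lt_mul_of_pos_left a2 (sub_pos.2 h2)]

theorem Good.sg_right (G : Good x y s η) (hx : Function.Injective x) {i j j' : ι}
    (h : Up' x y s Q i j) (h1 : x i < x j') (h2 : x j' < x j) :
    sg x y s η i j' < sg x y s η i j := by
  have v := h.vis hx h1.le h2.le
  have : slp x y i j' ≤ max (slp x y i j) s := by
    rw [slp_le_iff h1]; linarith
  have := max_le this (le_max_right _ s)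
  unfold sg
  linarith [G.right i j j' h2]

theorem Good.sg_left (G : Good x y s η) (hx : Function.Injective x) {i j i' : ι}
    (h : Up' x y s Q i j) (h1 : x i < x i') (h2 : x i' < x j) :
    sg x y s η i j < sg x y s η i' j := by
  have v := h.vis hx h1.le h2.le
  have : max (slp x y i j) s ≤ max (slp x y i' j) s := by
    rcases le_total (slp x y i j) s with h5 | h5
    · rw [max_eq_right h5]; exact le_max_right _ _
    · rw [max_eq_left h5] at v ⊢
      refine le_trans ?_ (le_max_left _ _)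
      rw [le_slp_iff h2]
      have := slp_self_eq (y := y) h.lt
      linarith
  unfold sg
  linarith [G.left i i' j h1]

theorem Good.nested (G : Good x y s η) (hx : Function.Injective x) {i j i' j' : ι} {t : ℝ}
    (h : Up' x y s Q i j) (hij' : x i' < x j') (hne : ¬ (i = i' ∧ j = j'))
    (h1 : x i ≤ x i') (h2 : x i' ≤ t) (h3 : t ≤ x j') (h4 : x j' ≤ x j)
    (he : crv x y s η i j t ≤ crv x y s η i' j' t) : (i = i' ∧ t = x i) ∨ (j = j' ∧ t = x j) := by
  by_contra hc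
  push Not at hc
  have A : (i = i' ∧ t = x i) ∨ L1 x y s η i' j' t < L1 x y s η i j t := by
    rcases h1.eq_or_lt with h1 | h1
    · obtain rfl := hx h1
      rcases h2.eq_or_lt with h2 | h2
      · exact Or.inl ⟨rfl, h2.symm⟩
      · right
        have hj : x j' < x j := lt_of_le_of_ne h4 (fun e => hne ⟨rfl, (hx e).symm⟩)
        have := mul_lt_mul_of_pos_right (G.sg_right hx h hij' hj) (sub_pos.2 h2)
        unfold L1; linarith
    · exact Or.inr (G.L1_nested hx h hij' h1 h2 h3 h4)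
  have A' : L1 x y s η i' j' t < L1 x y s η i j t := A.resolve_left (fun e => hc.1 e.1 e.2)
  refine absurd he (not_le.2 (lt_min ((min_le_left _ _).trans_lt A') ?_))
  rcases h4.eq_or_lt with h4 | h4
  · obtain rfl := hx h4
    have hi : x i < x i' := lt_of_le_of_ne h1 (fun e => hne ⟨hx e, rfl⟩)
    have ht : t < x j' := lt_of_le_of_ne h3 (hc.2 rfl)
    have := mul_lt_mul_of_pos_right (G.rh_lt_rh (G.sg_left hx h hi hij')) (sub_pos.2 ht)
    refine (min_le_right _ _).trans_lt ?_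
    unfold L2; linarith
  · refine (min_le_left _ _).trans_lt (A'.trans ?_)
    have b := G.bend i j j' h.lt h4
    have := mul_le_mul_of_nonneg_right (G.rh_lt_sg i j).le (sub_nonneg.2 h3)
    unfold L1 L2 at *
    linarith

theorem Good.up_cross (G : Good x y s η) (hx : Function.Injective x) {i j i' j' : ι} {t : ℝ}
    (h : Up' x y s Q i j) (h' : Up' x y s Q i' j') (hne : ¬ (i = i' ∧ j = j'))
    (h1 : x i ≤ t) (h2 : t ≤ x j) (h3 : x i' ≤ t) (h4 : t ≤ x j')
    (he : crv x y s η i j t = crv x y s η i' j' t) :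
    ∃ v, (v = i ∨ v = j) ∧ (v = i' ∨ v = j') ∧ x v = t := by
  have nest : ∀ {i j i' j' : ι}, Up' x y s Q i j → Up' x y s Q i' j' → ¬ (i = i' ∧ j = j') →
      x i' ≤ t → t ≤ x j' → crv x y s η i j t = crv x y s η i' j' t → x i ≤ x i' → x j' ≤ x j →
      ∃ v, (v = i ∨ v = j) ∧ (v = i' ∨ v = j') ∧ x v = t := by
    intro i j i' j' h h' hne h3 h4 he h5 h6
    rcases G.nested hx h h'.lt hne h5 h3 h4 h6 he.le with ⟨e1, e2⟩ | ⟨e1, e2⟩
    · exact ⟨i, Or.inl rfl, Or.inl e1, e2.symm⟩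
    · exact ⟨j, Or.inr rfl, Or.inr e1, e2.symm⟩
  have lam : ∀ {i j i' j' : ι}, Up' x y s Q i j → Up' x y s Q i' j' →
      x i' ≤ t → t ≤ x j → x i < x i' → x j < x j' → j = i' ∧ x j = t := by
    intro i j i' j' h h' h3 h2 h5 h6
    have : ¬ x i' < x j := fun h7 => laminar hx h h' h5 h7 h6
    have e : x j = x i' := le_antisymm (not_lt.1 this) (h3.trans h2)
    exact ⟨hx e, le_antisymm (e ▸ h3) h2⟩
  have hne' : ¬ (i' = i ∧ j' = j) := fun e => hne ⟨e.1.symm, e.2.symm⟩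
  by_cases c1 : x i ≤ x i' ∧ x j' ≤ x j
  · exact nest h h' hne h3 h4 he c1.1 c1.2
  by_cases c2 : x i' ≤ x i ∧ x j ≤ x j'
  · obtain ⟨v, a, b, c⟩ := nest h' h hne' h1 h2 he.symm c2.1 c2.2
    exact ⟨v, b, a, c⟩
  push Not at c1 c2
  rcases lt_trichotomy (x i) (x i') with c | c | c
  · obtain ⟨a, b⟩ := lam h h' h3 h2 c (c1 c.le)
    exact ⟨j, Or.inr rfl, Or.inl a, b⟩
  · exact absurd (c1 c.le) (not_lt.2 (c2 c.ge).le)
  · obtain ⟨a, b⟩ := lam h' h h1 h4 c (c2 c.le)
    exact ⟨j', Or.inl a, Or.inr rfl, b⟩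

end Pool.Agent.MP_237f1e_co

end

-- part MP_237f1e_co.Frame
section

namespace Pool.Agent.MP_237f1e_co

open Set EuclideanGeometry Filter Topology
open scoped RealInnerProductSpace

/-- the plane -/
abbrev Pl := EuclideanSpace ℝ (Fin 2)

/-- conformal linear coordinates -/
structure Frame (X Y : Pl →ₗ[ℝ] ℝ) : Prop where
  conf : ∃ K : ℝ, 0 < K ∧ ∀ v w : Pl, K * ⟪v, w⟫ = X v * X w + Y v * Y w
  surj : ∀ p q : ℝ, ∃ z, X z = p ∧ Y z = q

variable {X Y : Pl →ₗ[ℝ] ℝ}

theorem Frame.ext (F : Frame X Y) {z z' : Pl} (h1 : X z = X z') (h2 : Y z = Y z') : z = z' := by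
  obtain ⟨K, hK, h⟩ := F.conf
  have := h (z - z') (z - z')
  rw [map_sub, map_sub, h1, h2, sub_self, sub_self, mul_zero, add_zero, mul_eq_zero] at this
  exact sub_eq_zero.1 (inner_self_eq_zero.1 (this.resolve_left hK.ne'))

theorem Frame.neg (F : Frame X Y) : Frame X (-Y) := by
  obtain ⟨K, hK, h⟩ := F.conf
  refine ⟨⟨K, hK, fun v w => by simp [h v w]⟩, fun p q => ?_⟩
  obtain ⟨z, h1, h2⟩ := F.surj p (-q)
  exact ⟨z, h1, by simp [h2]⟩

theorem seg_mem {a c z : Pl} {σ : ℝ} (hz : z ∈ segment ℝ a c) (h : X a ≤ X c)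
    (hσ : Y c - Y a = σ * (X c - X a)) :
    X a ≤ X z ∧ X z ≤ X c ∧ Y z = Y a + σ * (X z - X a) := by
  obtain ⟨p, q, hp, hq, hpq, rfl⟩ := hz
  obtain rfl : p = 1 - q := by linarith
  simp only [map_add, map_smul, smul_eq_mul]
  refine ⟨by nlinarith, by nlinarith, ?_⟩
  linear_combination q * hσ

theorem seg_exists {a c : Pl} {σ t : ℝ} (h : X a < X c)
    (hσ : Y c - Y a = σ * (X c - X a)) (h1 : X a ≤ t) (h2 : t ≤ X c) :
    ∃ z ∈ segment ℝ a c, X z = t ∧ Y z = Y a + σ * (t - X a) := by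
  have h3 := sub_pos.2 h
  refine ⟨((X c - t) / (X c - X a)) • a + ((t - X a) / (X c - X a)) • c,
    ⟨_, _, div_nonneg (by linarith) h3.le, div_nonneg (by linarith) h3.le, by field_simp; ring,
      rfl⟩, ?_, ?_⟩
  · simp only [map_add, map_smul, smul_eq_mul]
    field_simp; ring
  · simp only [map_add, map_smul, smul_eq_mul]
    field_simp
    linear_combination (t - X a) * hσ

theorem Frame.bend (F : Frame X Y) {α : ℝ} (h0 : 0 < α) (hπ : α < Real.pi) {a c : Pl} {s σ ρ : ℝ}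
    (hs : s = Real.cos α / Real.sin α) (hσ : s < σ) (hρ : ρ = -s - (1 + s ^ 2) / (σ - s))
    (hac : X a < X c) (h1 : Y c < Y a + σ * (X c - X a)) (h2 : Y a < Y c + ρ * (X a - X c)) :
    ∃ b : Pl, ¬ Collinear ℝ {a, b, c} ∧ ∠ a b c = α ∧ ∀ z ∈ segment ℝ a b ∪ segment ℝ b c,
      X a ≤ X z ∧ X z ≤ X c ∧ Y z = min (Y a + σ * (X z - X a)) (Y c + ρ * (X z - X c)) := by
  have hσρ : 0 < σ - ρ := by nlinarith [sub_pos.2 hac]
  have hsin := Real.sin_pos_of_pos_of_lt_pi h0 hπ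
  have hd := sub_pos.2 hσ
  set u : ℝ := (Y c + ρ * (X a - X c) - Y a) / (σ - ρ) with hu
  set w : ℝ := (Y a + σ * (X c - X a) - Y c) / (σ - ρ) with hw
  have hu0 : 0 < u := div_pos (by linarith) hσρ
  have hw0 : 0 < w := div_pos (by linarith) hσρ
  have huw : u + w = X c - X a := by rw [hu, hw]; field_simp; ring
  have huw2 : σ * u + ρ * w = Y c - Y a := by rw [hu, hw]; field_simp; ring
  obtain ⟨b, hb1, hb2⟩ := F.surj (X a + u) (Y a + σ * u)
  have hang : ∠ a b c = α := by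
    obtain ⟨K, hK, h⟩ := F.conf
    have e1 := h (a - b) (a - b)
    have e2 := h (c - b) (c - b)
    have e3 := h (a - b) (c - b)
    have x1 : X (a - b) = -u := by rw [map_sub, hb1]; ring
    have y1 : Y (a - b) = -(σ * u) := by rw [map_sub, hb2]; ring
    have x2 : X (c - b) = w := by rw [map_sub, hb1]; linarith
    have y2 : Y (c - b) = ρ * w := by rw [map_sub, hb2]; linarith
    rw [x1, y1] at e1 e3
    rw [x2, y2] at e2 e3
    rw [real_inner_self_eq_norm_sq] at e1 e2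
    have hs2 : 1 + s ^ 2 = 1 / Real.sin α ^ 2 := by
      rw [hs]; field_simp; exact Real.sin_sq_add_cos_sq α
    have hr2 : 1 + ρ ^ 2 = (1 + σ ^ 2) * (1 + s ^ 2) / (σ - s) ^ 2 := by
      rw [hρ]; field_simp; ring
    have hr3 : 1 + σ * ρ = -s * (1 + σ ^ 2) / (σ - s) := by
      rw [hρ]; field_simp; ring
    have hN : ‖a - b‖ * ‖c - b‖ = u * w * (1 + σ ^ 2) / (K * Real.sin α * (σ - s)) := by
      rw [← sq_eq_sq₀ (by positivity) (by positivity)]
      have f1 : ‖a - b‖ ^ 2 = u ^ 2 * (1 + σ ^ 2) / K := by field_simp; linarith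
      have f2 : ‖c - b‖ ^ 2 = w ^ 2 * (1 + ρ ^ 2) / K := by field_simp; linarith
      rw [mul_pow, f1, f2, hr2, hs2]
      field_simp
    have hI : ⟪a - b, c - b⟫ = u * w * s * (1 + σ ^ 2) / (K * (σ - s)) := by
      have : ⟪a - b, c - b⟫ = -(u * w) * (1 + σ * ρ) / K := by field_simp; linarith
      rw [this, hr3]; field_simp
    unfold EuclideanGeometry.angle InnerProductGeometry.angle
    rw [vsub_eq_sub, vsub_eq_sub, hN, hI, ← Real.arccos_cos h0.le hπ.le]
    congr 1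
    rw [Real.arccos_cos h0.le hπ.le]
    have : s * Real.sin α = Real.cos α := by rw [hs]; field_simp
    rw [← this]
    field_simp
  refine ⟨b, ?_, hang, ?_⟩
  · rw [collinear_iff_eq_or_eq_or_angle_eq_zero_or_angle_eq_pi, hang]
    rintro (h | h | h | h)
    · rw [← h] at hb1; linarith
    · rw [← h] at hb1; linarith
    · exact h0.ne' h
    · exact hπ.ne h
  · have hc1 : X c = X a + u + w := by linarith
    have hc2 : Y c = Y a + σ * u + ρ * w := by linarith
    rintro z (hz | hz)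
    · obtain ⟨g1, g2, g3⟩ := seg_mem (X := X) (Y := Y) (σ := σ) hz (by linarith)
        (by rw [hb1, hb2]; ring)
      refine ⟨g1, by linarith, ?_⟩
      rw [min_eq_left, g3]
      rw [hb1] at g2
      have := mul_nonneg hσρ.le (sub_nonneg.2 g2)
      rw [hc1, hc2]
      linarith
    · obtain ⟨g1, g2, g3⟩ := seg_mem (X := X) (Y := Y) (σ := ρ) hz (by linarith)
        (by rw [hb1, hb2, hc1, hc2]; ring)
      refine ⟨by linarith, g2, ?_⟩
      rw [min_eq_right, g3, hb1, hb2, hc1, hc2]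
      · ring
      · rw [hb1] at g1
        have := mul_nonneg hσρ.le (sub_nonneg.2 g1)
        rw [hc1, hc2]
        linarith

end Pool.Agent.MP_237f1e_co

end

-- part MP_237f1e_co.Rotate
section

namespace Pool.Agent.MP_237f1e_co

open Set EuclideanGeometry Filter Topology
open scoped RealInnerProductSpace

variable {X Y : Pl →ₗ[ℝ] ℝ}

theorem Frame.rot (F : Frame X Y) (p q : ℝ) (h : 0 < p ^ 2 + q ^ 2) :
    Frame (p • X + q • Y) (-(q • X) + p • Y) := by
  obtain ⟨K, hK, hc⟩ := F.conf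
  refine ⟨⟨(p ^ 2 + q ^ 2) * K, by positivity, fun v w => ?_⟩, fun a b => ?_⟩
  · simp only [LinearMap.add_apply, LinearMap.smul_apply, LinearMap.neg_apply, smul_eq_mul]
    rw [mul_assoc, hc]; ring
  · obtain ⟨z, h1, h2⟩ := F.surj ((p * a - q * b) / (p ^ 2 + q ^ 2))
      ((q * a + p * b) / (p ^ 2 + q ^ 2))
    refine ⟨z, ?_, ?_⟩ <;>
    simp only [LinearMap.add_apply, LinearMap.smul_apply, LinearMap.neg_apply, smul_eq_mul, h1,
      h2] <;> field_simp <;> ring

theorem exists_frame : ∃ X Y : Pl →ₗ[ℝ] ℝ, Frame X Y := by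
  refine ⟨(EuclideanSpace.proj (𝕜 := ℝ) (0 : Fin 2)).toLinearMap,
    (EuclideanSpace.proj (𝕜 := ℝ) (1 : Fin 2)).toLinearMap, ⟨1, one_pos, fun v w => ?_⟩,
    fun p q => ⟨!₂[p, q], by simp, by simp⟩⟩
  simp [PiLp.inner_apply, Fin.sum_univ_two, mul_comm]

theorem affine_pos_eventually {A B : ℝ} (h : 0 < A) : ∀ᶠ t in 𝓝[>] (0 : ℝ), 0 < A + t * B := by
  have hc : Continuous (fun t : ℝ => A + t * B) := by fun_prop
  exact nhdsWithin_le_nhds (hc.continuousAt.eventually (lt_mem_nhds (by simpa using h)))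

theorem Frame.inj_eventually (F : Frame X Y) (P : Finset Pl) :
    ∀ᶠ t in 𝓝[>] (0 : ℝ), ∀ a ∈ P, ∀ b ∈ P, X a + t * Y a = X b + t * Y b → a = b := by
  simp only [eventually_all_finset]
  intro a _ b _
  rcases lt_trichotomy (X a) (X b) with h | h | h
  · filter_upwards [affine_pos_eventually (B := Y b - Y a) (sub_pos.2 h)] with t ht e
    exact absurd e (by intro e; linarith)
  · filter_upwards [self_mem_nhdsWithin] with t ht e
    refine F.ext h (mul_left_cancel₀ (ne_of_gt ht) (by linarith))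
  · filter_upwards [affine_pos_eventually (B := Y a - Y b) (sub_pos.2 h)] with t ht e
    exact absurd e (by intro e; linarith)

theorem exists_good_frame (P : Finset Pl) {a b : Pl} (ha : a ∈ P) (hb : b ∈ P) (hab : a ≠ b)
    (s : ℝ) : ∃ X Y : Pl →ₗ[ℝ] ℝ, Frame X Y ∧ (∀ a ∈ P, ∀ b ∈ P, X a = X b → a = b) ∧
      ∃ l1 ∈ P, ∃ l2 ∈ P, X l1 < X l2 ∧ (∀ q ∈ P, q ≠ l1 → X l2 ≤ X q) ∧
        ∃ τ ≤ s, Y l2 - Y l1 = τ * (X l2 - X l1) ∧ ∀ q ∈ P, τ * (X q - X l1) ≤ Y q - Y l1 := by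
  classical
  obtain ⟨X0, Y0, F0⟩ := exists_frame
  obtain ⟨t0, ht0⟩ := (F0.inj_eventually P).exists
  obtain ⟨X1, Y1, F1, hinj⟩ : ∃ X1 Y1 : Pl →ₗ[ℝ] ℝ, Frame X1 Y1 ∧
      ∀ a ∈ P, ∀ b ∈ P, X1 a = X1 b → a = b :=
    ⟨_, _, F0.rot 1 t0 (by positivity), by simpa using ht0⟩
  obtain ⟨l1, hl1, hmin1⟩ := P.exists_min_image X1 ⟨a, ha⟩
  have hlt : ∀ q ∈ P, q ≠ l1 → X1 l1 < X1 q := fun q hq hne =>
    lt_of_le_of_ne (hmin1 q hq) (fun e => hne (hinj _ hl1 _ hq e).symm)
  have hne : (P.erase l1).Nonempty := by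
    by_cases h : a = l1
    · exact ⟨b, Finset.mem_erase.2 ⟨fun e => hab (h.trans e.symm), hb⟩⟩
    · exact ⟨a, Finset.mem_erase.2 ⟨h, ha⟩⟩
  obtain ⟨l0, hl0, hmin0⟩ := (P.erase l1).exists_min_image
    (fun q => (Y1 q - Y1 l1) / (X1 q - X1 l1)) hne
  set μ := (Y1 l0 - Y1 l1) / (X1 l0 - X1 l1) with hμ
  have hN : ∀ q ∈ P, μ * (X1 q - X1 l1) ≤ Y1 q - Y1 l1 := by
    intro q hq
    by_cases h : q = l1
    · simp [h]
    · exact (le_div_iff₀ (sub_pos.2 (hlt q hq h))).1 (hmin0 q (Finset.mem_erase.2 ⟨h, hq⟩))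
  obtain ⟨l2, hl2, hmin2⟩ := ((P.erase l1).filter
    (fun q => μ * (X1 q - X1 l1) = Y1 q - Y1 l1)).exists_min_image X1
    ⟨l0, Finset.mem_filter.2 ⟨hl0, by
      have := sub_pos.2 (hlt l0 (Finset.mem_erase.1 hl0).2 (Finset.mem_erase.1 hl0).1)
      rw [hμ]; field_simp⟩⟩
  obtain ⟨hl2a, hl2b⟩ := Finset.mem_filter.1 hl2
  obtain ⟨hl2c, hl2d⟩ := Finset.mem_erase.1 hl2a
  obtain ⟨N, D, F2, hNd, hDd⟩ : ∃ N D : Pl →ₗ[ℝ] ℝ, Frame N D ∧
      (∀ v, N v = Y1 v - μ * X1 v) ∧ ∀ v, D v = X1 v + μ * Y1 v :=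
    ⟨_, _, (F1.rot (-μ) 1 (by positivity)).neg, fun v => by simp; ring, fun v => by simp; ring⟩
  have ev1 : ∀ᶠ t in 𝓝[>] (0 : ℝ), ∀ q ∈ P, q ≠ l1 → N l2 + t * D l2 ≤ N q + t * D q := by
    simp only [eventually_all_finset]
    intro q hq
    rcases (hN q hq).eq_or_lt with h | h
    · filter_upwards [self_mem_nhdsWithin] with t ht hne
      have h1 := hmin2 q (Finset.mem_filter.2 ⟨Finset.mem_erase.2 ⟨hne, hq⟩, h⟩)
      have h2 : D q - D l2 = (1 + μ ^ 2) * (X1 q - X1 l2) := by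
        rw [hDd, hDd]; linear_combination μ * hl2b - μ * h
      have h3 : 0 ≤ t * ((1 + μ ^ 2) * (X1 q - X1 l2)) :=
        mul_nonneg (le_of_lt ht) (mul_nonneg (by positivity) (sub_nonneg.2 h1))
      rw [← h2] at h3
      have h4 : N q = N l2 := by rw [hNd, hNd]; linarith
      linarith
    · filter_upwards [affine_pos_eventually (A := N q - N l2) (B := D q - D l2)
        (by rw [hNd, hNd]; linarith)] with t ht _
      linarith
  have ev2 : ∀ᶠ t in 𝓝[>] (0 : ℝ), 0 < 1 + t * s := affine_pos_eventually one_pos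
  obtain ⟨t, ⟨⟨h1, h2⟩, h3⟩, h4⟩ :=
    ((((F2.inj_eventually P).and ev1).and ev2).and self_mem_nhdsWithin).exists
  have ht : 0 < t := h4
  have e1 : N l2 = N l1 := by rw [hNd, hNd]; linarith
  have e2 : D l1 < D l2 := by
    have : D l2 - D l1 = (1 + μ ^ 2) * (X1 l2 - X1 l1) := by
      rw [hDd, hDd]; linear_combination (-μ) * hl2b
    have h5 : 0 < (1 + μ ^ 2) * (X1 l2 - X1 l1) :=
      mul_pos (by positivity) (sub_pos.2 (hlt l2 hl2d hl2c))
    linarith
  refine ⟨_, _, (F2.rot 1 t (by positivity)).neg, by simpa using h1, l1, hl1, l2, hl2d, ?_,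
    by simpa using h2, -1 / t, ?_, ?_, ?_⟩
  · have := mul_lt_mul_of_pos_left e2 ht
    simp only [LinearMap.add_apply, LinearMap.smul_apply, smul_eq_mul]
    linarith
  · rw [div_le_iff₀ ht]; linarith
  · simp only [LinearMap.add_apply, LinearMap.smul_apply, LinearMap.neg_apply, smul_eq_mul, e1]
    field_simp; ring
  · intro q hq
    have h5 : 0 ≤ N q - N l1 := by rw [hNd, hNd]; linarith [hN q hq]
    simp only [LinearMap.add_apply, LinearMap.smul_apply, LinearMap.neg_apply, smul_eq_mul]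
    rw [div_mul_eq_mul_div, div_le_iff₀ ht]
    have := mul_nonneg (by positivity : 0 ≤ 1 + t ^ 2) h5
    nlinarith

end Pool.Agent.MP_237f1e_co

end

-- part MP_237f1e_co.Main
section

namespace Pool.Agent.MP_237f1e_co

open Set EuclideanGeometry

section
variable {ι : Type*} {x y : ι → ℝ} {s : ℝ} {Q Q' : ι → Prop} {η η' : ι → ι → ℝ}

theorem slp_neg (a b : ι) : slp x (fun i => -y i) a b = -slp x y a b := by
  unfold slp; ring

theorem lin_neg (a b : ι) (t : ℝ) : lin x (fun i => -y i) a b t = -lin x y a b t := by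
  unfold lin; rw [slp_neg]; ring

theorem Good.crv_end (G : Good x y s η) (hx : Function.Injective x) {i j v : ι}
    (h : Up' x y s Q i j) (hv : v = i ∨ v = j) : crv x y s η i j (x v) = y v := by
  rcases hv with rfl | rfl
  · exact le_antisymm ((min_le_left _ _).trans (by simp [L1])) (G.le_crv hx h le_rfl h.lt.le)
  · exact le_antisymm ((min_le_right _ _).trans (by simp [L2])) (G.le_crv hx h h.lt.le le_rfl)

theorem mixed_cross [Finite ι] (G : Good x y s η) (G' : Good x (fun i => -y i) s η')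
    (hx : Function.Injective x) {i j i' j' : ι} {t : ℝ}
    (h : Up' x y s Q i j) (h' : Up' x (fun i => -y i) s Q' i' j')
    (h1 : x i ≤ t) (h2 : t ≤ x j) (h3 : x i' ≤ t) (h4 : t ≤ x j')
    (he : crv x y s η i j t = -crv x (fun i => -y i) s η' i' j' t) :
    ∃ v, (v = i ∨ v = j) ∧ (v = i' ∨ v = j') ∧ x v = t := by
  by_cases hk : ∃ k, x k = t
  · obtain ⟨k, rfl⟩ := hk
    have a1 := G.le_crv hx h h1 h2
    have a2 := G'.le_crv hx h' h3 h4
    exact ⟨k, G.eq_of_crv hx h h1 h2 (by linarith), G'.eq_of_crv hx h' h3 h4 (by linarith), rfl⟩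
  push Not at hk
  exfalso
  have l1 := lt_of_le_of_ne h1 (hk i)
  have l2 := lt_of_le_of_ne h2 (hk j).symm
  have l3 := lt_of_le_of_ne h3 (hk i')
  have l4 := lt_of_le_of_ne h4 (hk j').symm
  obtain ⟨a, ha, hmax⟩ := Set.exists_max_image {k | x k < t} x (Set.toFinite _) ⟨i, l1⟩
  obtain ⟨b, hb, hmin⟩ := Set.exists_min_image {k | t < x k} x (Set.toFinite _) ⟨j, l2⟩
  have a1 := G.lin_lt_crv hx h (hmax i l1) ha hb (hmin j l2)
  have a2 := G'.lin_lt_crv hx h' (hmax i' l3) ha hb (hmin j' l4)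
  rw [lin_neg] at a2
  linarith

theorem ncard_edgeSet (hx : Function.Injective x) (G : SimpleGraph ι) :
    G.edgeSet.ncard = {p : ι × ι | G.Adj p.1 p.2 ∧ x p.1 < x p.2}.ncard := by
  symm
  refine Set.ncard_congr (fun p _ => s(p.1, p.2)) (fun p hp => hp.1) ?_ ?_
  · rintro ⟨a, b⟩ ⟨c, d⟩ h1 h2 h
    rcases Sym2.eq_iff.1 h with ⟨rfl, rfl⟩ | ⟨rfl, rfl⟩
    · rfl
    · exact absurd h1.2 (not_lt.2 h2.2.le)
  · intro e he
    induction e using Sym2.ind with
    | h a b =>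
      have hab : G.Adj a b := he
      rcases lt_trichotomy (x a) (x b) with h | h | h
      · exact ⟨(a, b), ⟨hab, h⟩, rfl⟩
      · exact absurd (hx h) hab.ne
      · exact ⟨(b, a), ⟨hab.symm, h⟩, Sym2.eq_swap⟩

theorem up_disjoint (hx : Function.Injective x) {l1 l2 : ι} {τ : ℝ} (h12 : x l1 < x l2)
    (hl2 : ∀ q, q ≠ l1 → x l2 ≤ x q) (hτ : τ ≤ s) (he : y l2 - y l1 = τ * (x l2 - x l1))
    {i j : ι} (h : Up x y s (fun _ => True) i j)
    (h' : Up x (fun i => -y i) s (fun k => k ≠ l1) i j) : False := by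
  obtain ⟨-, ⟨k, hk1, hk2⟩, τ1, a1, -, a2, a3⟩ := h
  obtain ⟨hi, -, τ2, -, -, b2, b3⟩ := h'
  rcases (hl2 i hi).eq_or_lt with e | e
  · obtain rfl := hx e
    have := a2 l1 trivial h12
    have := mul_le_mul_of_nonneg_right (hτ.trans a1) (sub_pos.2 h12).le
    linarith
  · have c1 := a2 l2 trivial e
    have c2 := b2 l2 (fun e => h12.ne' (congrArg x e)) e
    have c3 := a3 k hk1 hk2
    have c4 := b3 k hk1 hk2
    have p1 := sub_pos.2 e
    have p2 := sub_pos.2 hk1
    have d1 : τ1 + τ2 < 0 := by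
      by_contra hc
      have := mul_nonneg (not_lt.1 hc) p1.le
      linarith
    have := mul_pos (neg_pos.2 d1) p2
    linarith

theorem clow_sub (hx : Function.Injective x) {l1 l2 : ι} {τ : ℝ} (h12 : x l1 < x l2)
    (hl2 : ∀ q, q ≠ l1 → x l2 ≤ x q) (he : y l2 - y l1 = τ * (x l2 - x l1))
    (hq : ∀ q, τ * (x q - x l1) ≤ y q - y l1) {m : ι} (h : Clow x y m) :
    CupQ x (fun i => -y i) (fun k => k ≠ l1) m := by
  obtain ⟨a, b, h1, h2, h3⟩ := h
  by_cases ha : a = l1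
  · subst ha
    have hab := h1.trans h2
    have t1 : τ ≤ slp x y a b := by
      rw [le_slp_iff hab]; linarith [hq b]
    have t2 := mul_le_mul_of_nonneg_right t1 (sub_pos.2 h12).le
    have hm : m ≠ a := fun e => h1.ne' (congrArg x e)
    rcases (hl2 m hm).eq_or_lt with e | e
    · obtain rfl := hx e
      unfold lin at h3
      linarith
    · refine ⟨l2, b, fun e => h12.ne' (congrArg x e), e, h2, ?_⟩
      rw [lin_neg, neg_lt_neg_iff]
      refine lt_of_le_of_lt ?_ h3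
      have e1 := slp_mul (y := y) hab
      have e2 := slp_mul (y := y) (e.trans h2)
      have t3 : slp x y a b ≤ slp x y l2 b := by
        rw [le_slp_iff (e.trans h2)]; linarith
      have := mul_le_mul_of_nonneg_right t3 (sub_pos.2 h2).le
      unfold lin
      linarith
  · exact ⟨a, b, ha, h1, h2, by rw [lin_neg, neg_lt_neg_iff]; exact h3⟩

end

variable {X Y : Pl →ₗ[ℝ] ℝ} {P : Finset Pl}

theorem nonCross_of_straight (F : Frame X Y) {G : SimpleGraph P} (hG : IsStraightLineGraph P G) :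
    NonCross (fun i : P => X i) (fun i : P => Y i)
      (fun a b => G.Adj a b ∧ X a < X b) := by
  obtain ⟨γ, ⟨H1, H2⟩, hγ⟩ := hG
  refine ⟨fun a b h => h.2, ?_, ?_⟩
  · intro a b c d hab hcd hne t h1 h2 h3 h4 he
    obtain ⟨z, hz, hz1, hz2⟩ := seg_exists (X := X) (Y := Y) hab.2
      (slp_mul (x := fun i : P => X i) (y := fun i : P => Y i) hab.2).symm h1 h2
    obtain ⟨z', hz', hz1', hz2'⟩ := seg_exists (X := X) (Y := Y) hcd.2
      (slp_mul (x := fun i : P => X i) (y := fun i : P => Y i) hcd.2).symm h3 h4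
    obtain rfl : z = z' := F.ext (hz1.trans hz1'.symm) (by rw [hz2, hz2']; exact he)
    have hne' : s(a, b) ≠ s(c, d) := by
      intro h
      rcases Sym2.eq_iff.1 h with h | ⟨rfl, rfl⟩
      · exact hne h
      · exact absurd hab.2 (not_lt.2 hcd.2.le)
    obtain ⟨v, hv1, hv2, rfl⟩ := H1 s(a, b) hab.1 s(c, d) hcd.1 hne' z
      ⟨by rw [hγ a b hab.1]; exact hz, by rw [hγ c d hcd.1]; exact hz'⟩
    exact ⟨v, Sym2.mem_iff.1 hv1, Sym2.mem_iff.1 hv2, hz1⟩
  · intro a b v hab h1 h2 he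
    obtain ⟨z, hz, hz1, hz2⟩ := seg_exists (X := X) (Y := Y) hab.2
      (slp_mul (x := fun i : P => X i) (y := fun i : P => Y i) hab.2).symm h1.le h2.le
    obtain rfl : z = v := F.ext hz1 (by rw [hz2]; exact he)
    have := H2 s(a, b) hab.1 v (by rw [hγ a b hab.1]; exact hz)
    rcases Sym2.mem_iff.1 this with rfl | rfl
    · exact lt_irrefl _ h1
    · exact lt_irrefl _ h2

theorem exists_family (F : Frame X Y) {α : ℝ} (h0 : 0 < α) (hπ : α < Real.pi)
    {η : P → P → ℝ}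
    (G : Good (fun i : P => X i) (fun i : P => Y i) (Real.cos α / Real.sin α) η) :
    ∃ Γ : P → P → Set Pl, ∀ i j : P, X i < X j →
      (∃ b : Pl, ¬ Collinear ℝ {(i : Pl), b, (j : Pl)} ∧ ∠ (i : Pl) b j = α ∧
        Γ i j = segment ℝ (i : Pl) b ∪ segment ℝ b j) ∧
      ∀ z ∈ Γ i j, X i ≤ X z ∧ X z ≤ X j ∧
        Y z = crv (fun i : P => X i) (fun i : P => Y i) (Real.cos α / Real.sin α) η i j (X z) := by
  have key : ∀ i j : P, ∃ S : Set Pl, X i < X j →
      (∃ b : Pl, ¬ Collinear ℝ {(i : Pl), b, (j : Pl)} ∧ ∠ (i : Pl) b j = α ∧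
        S = segment ℝ (i : Pl) b ∪ segment ℝ b j) ∧
      ∀ z ∈ S, X i ≤ X z ∧ X z ≤ X j ∧
        Y z = crv (fun i : P => X i) (fun i : P => Y i) (Real.cos α / Real.sin α) η i j (X z) := by
    intro i j
    by_cases hij : X i < X j
    · obtain ⟨b, h1, h2, h3⟩ := F.bend h0 hπ rfl (G.s_lt_sg i j) rfl hij
        (by
          have e := slp_mul (x := fun i : P => X i) (y := fun i : P => Y i) hij
          have := mul_lt_mul_of_pos_right (show slp (fun i : P => X i) (fun i : P => Y i) i j <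
            sg (fun i : P => X i) (fun i : P => Y i) (Real.cos α / Real.sin α) η i j from by
              unfold sg
              linarith [le_max_left (slp (fun i : P => X i) (fun i : P => Y i) i j)
                (Real.cos α / Real.sin α), G.pos i j]) (sub_pos.2 hij)
          linarith)
        (by simpa [L1, L2, rh] using G.bend i j i hij hij)
      exact ⟨_, fun _ => ⟨⟨b, h1, h2, rfl⟩, h3⟩⟩
    · exact ⟨∅, fun h => absurd h hij⟩
  choose Γ hΓ using key
  exact ⟨Γ, hΓ⟩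

theorem main (P : Finset Pl) {α : ℝ} (h0 : 0 < α) (hπ : α < Real.pi) (G : SimpleGraph P)
    (hG : IsStraightLineGraph P G) :
    ∃ G' : SimpleGraph P, IsBendGraph P α G' ∧ G.edgeSet.ncard ≤ G'.edgeSet.ncard := by
  classical
  rcases G.edgeSet.eq_empty_or_nonempty with hE | ⟨e0, he0⟩
  · refine ⟨⊥, ⟨fun _ => ∅, ⟨by simp, by simp⟩, by simp⟩, by simp [hE]⟩
  obtain ⟨a0, b0, hab0⟩ : ∃ a b : P, a ≠ b := by
    induction e0 using Sym2.ind with
    | h a b => exact ⟨a, b, G.ne_of_adj he0⟩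
  set s := Real.cos α / Real.sin α with hs
  obtain ⟨X, Y, F, hinj, l1, hl1, l2, hl2, h12, hl2', τ, hτ, he, hq⟩ :=
    exists_good_frame P a0.2 b0.2 (fun e => hab0 (Subtype.ext e)) s
  set x : P → ℝ := fun i => X i with hxd
  set y : P → ℝ := fun i => Y i with hyd
  have hx : Function.Injective x := fun a b h => Subtype.ext (hinj a a.2 b b.2 h)
  have h12' : x ⟨l1, hl1⟩ < x ⟨l2, hl2⟩ := h12
  have hl2'' : ∀ q : P, q ≠ ⟨l1, hl1⟩ → x ⟨l2, hl2⟩ ≤ x q :=
    fun q h => hl2' q q.2 (fun e => h (Subtype.ext e))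
  obtain ⟨η, Gd⟩ := exists_good x y s
  obtain ⟨η', Gd'⟩ := exists_good x (fun i => -y i) s
  obtain ⟨Γ, hΓ⟩ := exists_family F h0 hπ Gd
  obtain ⟨Γ', hΓ'⟩ := exists_family F.neg h0 hπ Gd'
  let U : P → P → Prop := Up' x y s (fun _ => True)
  let L : P → P → Prop := Up x (fun i => -y i) s (fun k => k ≠ ⟨l1, hl1⟩)
  let R : P → P → Prop := fun i j => U i j ∨ L i j
  have hR : ∀ i j, R i j → x i < x j := fun i j h => h.elim Up'.lt Up.lt
  let Δ : P → P → Set Pl := fun i j => if U i j then Γ i j else Γ' i j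
  let γ : Sym2 P → Set Pl := fun e => {z | ∃ i j, e = s(i, j) ∧ x i < x j ∧ z ∈ Δ i j}
  have hγ : ∀ i j, x i < x j → γ s(i, j) = Δ i j := by
    intro i j h
    ext z
    constructor
    · rintro ⟨i', j', e, h1, h2⟩
      rcases Sym2.eq_iff.1 e with ⟨rfl, rfl⟩ | ⟨rfl, rfl⟩
      · exact h2
      · exact absurd h (not_lt.2 h1.le)
    · exact fun hz => ⟨i, j, rfl, h, hz⟩
  have hedge : ∀ e ∈ (SimpleGraph.fromRel R).edgeSet, ∃ i j, e = s(i, j) ∧ R i j := by
    intro e he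
    induction e using Sym2.ind with
    | h a b =>
      rcases ((SimpleGraph.fromRel_adj R a b).1 he).2 with h | h
      · exact ⟨a, b, rfl, h⟩
      · exact ⟨b, a, Sym2.eq_swap, h⟩
  have hpt : ∀ i j, R i j → ∀ z ∈ Δ i j, x i ≤ X z ∧ X z ≤ x j ∧
      ((U i j ∧ Y z = crv x y s η i j (X z)) ∨
        (¬ U i j ∧ L i j ∧ -Y z = crv x (fun i => -y i) s η' i j (X z))) := by
    intro i j h z hz
    by_cases hU : U i j
    · simp only [Δ, if_pos hU] at hz
      obtain ⟨h1, h2, h3⟩ := (hΓ i j (hR i j h)).2 z hz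
      exact ⟨h1, h2, Or.inl ⟨hU, h3⟩⟩
    · simp only [Δ, if_neg hU] at hz
      obtain ⟨h1, h2, h3⟩ := (hΓ' i j (hR i j h)).2 z hz
      exact ⟨h1, h2, Or.inr ⟨hU, h.resolve_left hU, h3⟩⟩
  refine ⟨SimpleGraph.fromRel R, ⟨γ, ⟨?_, ?_⟩, ?_⟩, ?_⟩
  · intro e he e' he' hne z hz
    obtain ⟨i, j, rfl, hij⟩ := hedge e he
    obtain ⟨i', j', rfl, hij'⟩ := hedge e' he'
    rw [hγ i j (hR _ _ hij), hγ i' j' (hR _ _ hij')] at hz
    have hne' : ¬ (i = i' ∧ j = j') := by
      rintro ⟨rfl, rfl⟩; exact hne rfl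
    obtain ⟨h1, h2, h3⟩ := hpt i j hij z hz.1
    obtain ⟨h4, h5, h6⟩ := hpt i' j' hij' z hz.2
    have : ∃ v, (v = i ∨ v = j) ∧ (v = i' ∨ v = j') ∧ x v = X z := by
      rcases h3 with ⟨a1, a2⟩ | ⟨-, a1, a2⟩ <;> rcases h6 with ⟨b1, b2⟩ | ⟨-, b1, b2⟩
      · exact Gd.up_cross hx a1 b1 hne' h1 h2 h4 h5 (a2.symm.trans b2)
      · exact mixed_cross Gd Gd' hx a1 (Or.inr b1) h1 h2 h4 h5 (by linarith)
      · obtain ⟨v, c1, c2, c3⟩ := mixed_cross Gd Gd' hx b1 (Or.inr a1) h4 h5 h1 h2 (by linarith)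
        exact ⟨v, c2, c1, c3⟩
      · exact Gd'.up_cross hx (Or.inr a1) (Or.inr b1) hne' h1 h2 h4 h5 (a2.symm.trans b2)
    obtain ⟨v, c1, c2, c3⟩ := this
    refine ⟨v, Sym2.mem_iff.2 c1, Sym2.mem_iff.2 c2, F.ext c3.symm ?_⟩
    rcases h3 with ⟨a1, a2⟩ | ⟨-, a1, a2⟩
    · rw [a2, ← c3, Gd.crv_end hx a1 c1]
    · rw [← c3, Gd'.crv_end hx (Or.inr a1) c1] at a2
      exact neg_injective a2
  · intro e he v hv
    obtain ⟨i, j, rfl, hij⟩ := hedge e he
    rw [hγ i j (hR _ _ hij)] at hv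
    obtain ⟨h1, h2, h3⟩ := hpt i j hij v hv
    rw [Sym2.mem_iff]
    rcases h3 with ⟨a1, a2⟩ | ⟨-, a1, a2⟩
    · exact Gd.eq_of_crv hx a1 h1 h2 a2.ge
    · exact Gd'.eq_of_crv hx (Or.inr a1) h1 h2 a2.ge
  · have key : ∀ i j : P, x i < x j → ∃ b : Pl, ¬ Collinear ℝ {(i : Pl), b, (j : Pl)} ∧
        ∠ (i : Pl) b j = α ∧ γ s(i, j) = segment ℝ (i : Pl) b ∪ segment ℝ b j := by
      intro i j h
      rw [hγ i j h]
      by_cases hU : U i j
      · simp only [Δ, if_pos hU]; exact (hΓ i j h).1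
      · simp only [Δ, if_neg hU]; exact (hΓ' i j h).1
    intro a c hac
    rcases ((SimpleGraph.fromRel_adj R a c).1 hac).2 with h | h
    · exact key a c (hR _ _ h)
    · obtain ⟨b, h1, h2, h3⟩ := key c a (hR _ _ h)
      refine ⟨b, ?_, by rw [angle_comm, h2], ?_⟩
      · have : ({(a : Pl), b, (c : Pl)} : Set Pl) = {(c : Pl), b, (a : Pl)} := by
          ext z; simp only [mem_insert_iff, mem_singleton_iff]; tauto
        rwa [this]
      · rw [Sym2.eq_swap, h3, union_comm, segment_symm ℝ b, segment_symm ℝ (c : Pl)]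
  · rw [ncard_edgeSet hx G, ncard_edgeSet hx (SimpleGraph.fromRel R)]
    have e1 : {p : P × P | (SimpleGraph.fromRel R).Adj p.1 p.2 ∧ x p.1 < x p.2} =
        {p : P × P | Cons x p.1 p.2} ∪ {p : P × P | Up x y s (fun _ => True) p.1 p.2} ∪
          {p : P × P | L p.1 p.2} := by
      ext ⟨i, j⟩
      simp only [SimpleGraph.fromRel_adj, mem_ofPred_eq, mem_union]
      constructor
      · rintro ⟨⟨-, h | h⟩, h2⟩
        · exact h
        · exact absurd (hR _ _ h) (not_lt.2 h2.le)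
      · intro h
        have h2 := hR i j h
        exact ⟨⟨fun e => h2.ne (congrArg x e), Or.inl h⟩, h2⟩
    have d1 : Disjoint {p : P × P | Cons x p.1 p.2}
        {p : P × P | Up x y s (fun _ => True) p.1 p.2} := by
      rw [Set.disjoint_left]
      rintro ⟨i, j⟩ h ⟨-, ⟨k, hk⟩, -⟩
      exact h.2 k hk
    have d2 : Disjoint ({p : P × P | Cons x p.1 p.2} ∪
        {p : P × P | Up x y s (fun _ => True) p.1 p.2}) {p : P × P | L p.1 p.2} := by
      rw [Set.disjoint_left]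
      rintro ⟨i, j⟩ (h | h) h'
      · obtain ⟨-, ⟨k, hk⟩, -⟩ := h'
        exact h.2 k hk
      · exact up_disjoint hx h12' hl2'' hτ he h h'
    rw [e1, Set.ncard_union_eq d2, Set.ncard_union_eq d1]
    refine (upper_bound hx (nonCross_of_straight F hG)).trans ?_
    gcongr
    · refine le_trans (Set.ncard_le_ncard ?_ (Set.toFinite _))
        (count_up hx s (fun _ => True) (fun _ _ _ _ => trivial))
      rintro m ⟨a, b, h⟩
      exact ⟨a, b, trivial, h⟩
    · refine le_trans (Set.ncard_le_ncard ?_ (Set.toFinite _))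
        (count_up hx s (fun k => k ≠ ⟨l1, hl1⟩) ?_)
      · exact fun m hm => clow_sub hx h12' hl2'' he (fun q => hq q q.2) hm
      · rintro i k hi hik rfl
        exact absurd (h12'.trans_le (hl2'' i hi)) (not_lt.2 hik.le)

end Pool.Agent.MP_237f1e_co

end
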